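import Mathlib
import Pool.Agent.H395R3.FimH

/-!
# Equality of rational subsets of free inverse monoids is decidable

Question Q2 of the problem, for every finite alphabet.
-/

set_option autoImplicit false

namespace Pool.Agent.Results.MP_61c0e4_al.EqualityDecidable

/-- A letter: a generator `(i, true)` or its formal inverse `(i, false)`. -/
abbrev Letter (k : ℕ) := Fin k × Bool

/-- The formal inverse of a word. -/
def invWord {k : ℕ} (u : FreeMonoid (Letter k)) : FreeMonoid (Letter k) :=
  FreeMonoid.ofList (((FreeMonoid.toList u).map (fun x => (x.1, !x.2))).reverse)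

/-- The relations `u u⁻¹ u = u` and `u u⁻¹ v v⁻¹ = v v⁻¹ u u⁻¹`, for all words `u`, `v`. -/
def VagnerRel (k : ℕ) (a b : FreeMonoid (Letter k)) : Prop :=
  (∃ u, a = u * invWord u * u ∧ b = u) ∨
    ∃ u v, a = u * invWord u * v * invWord v ∧ b = v * invWord v * u * invWord u

/-- The free inverse monoid on `k` generators: the free monoid on the letters modulo the
congruence generated by the Vagner relations. -/
abbrev FreeInverseMonoid (k : ℕ) := (conGen (VagnerRel k)).Quotient

/-- A finite automaton with states in `ℕ`: its transitions, its initial state, its final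
states. -/
abbrev Automaton (k : ℕ) := List (ℕ × Letter k × ℕ) × ℕ × List ℕ

/-- The automaton accepts the word `w`: there is a sequence of states `s` from the initial state
to a final state which follows the transitions. -/
def Accepts {k : ℕ} (A : Automaton k) (w : List (Letter k)) : Prop :=
  ∃ s : List ℕ, s.length = w.length + 1 ∧ s.getD 0 0 = A.2.1 ∧ s.getD w.length 0 ∈ A.2.2 ∧
    ∀ (i : ℕ) (a : Letter k), w[i]? = some a → (s.getD i 0, a, s.getD (i + 1) 0) ∈ A.1

/-- The rational subset of the free inverse monoid given by an automaton: the set of the classes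
of the accepted words. -/
def rationalSubset {k : ℕ} (A : Automaton k) : Set (FreeInverseMonoid k) :=
  {x | ∃ w : List (Letter k), Accepts A w ∧
    x = ((FreeMonoid.ofList w : FreeMonoid (Letter k)) : FreeInverseMonoid k)}

open Pool.Agent.H395R3.Fim in
theorem incl_iff {k : ℕ} (A B : Automaton k) :
    rationalSubset A ⊆ rationalSubset B ↔ incl (A, B) := by
  constructor
  · intro h w hw
    obtain ⟨w', hw', e⟩ := h ⟨w, hw, rfl⟩
    exact ⟨w', hw', (Con.eq _).1 e⟩
  · rintro h x ⟨w, hw, rfl⟩
    obtain ⟨w', hw', e⟩ := h w hw
    exact ⟨w', hw', (Con.eq _).2 e⟩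

/-- For every `k ≥ 2` there is an algorithm which, given two finite automata over `k` letters and
their inverses, decides whether they define the same rational subset of the free inverse monoid
on `k` generators. -/
theorem result : ∀ k : ℕ, 2 ≤ k →
    ComputablePred (fun p : Automaton k × Automaton k =>
      rationalSubset p.1 = rationalSubset p.2) := by
  intro k _
  have h : (fun p : Automaton k × Automaton k => rationalSubset p.1 = rationalSubset p.2) =
      fun p => Pool.Agent.H395R3.Fim.dec p ∧ Pool.Agent.H395R3.Fim.dec (p.2, p.1) := by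
    funext p
    refine propext ?_
    rw [← Pool.Agent.H395R3.Fim.incl_iff_dec, ← Pool.Agent.H395R3.Fim.incl_iff_dec,
      Set.Subset.antisymm_iff]
    exact and_congr (incl_iff p.1 p.2) (incl_iff p.2 p.1)
  rw [h]
  exact (PrimrecPred.and Pool.Agent.H395R3.Fim.prim_dec
    (Pool.Agent.H395R3.Fim.prim_dec.comp (Primrec.pair Primrec.snd Primrec.fst))).computablePred

end Pool.Agent.Results.MP_61c0e4_al.EqualityDecidable
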